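import Pool.Agent.BED.Stmts
import Pool.Agent.Helper70_BE01.All

/-!
# Squad BED (MP_be01ff_an), row WV3 (after `Helper70_BE01/Wvc2.lean`, proof of helper82)
-/

namespace Pool.Agent.BED.H14

open Set Filter Topology MeasureTheory
open scoped InnerProductSpace ENNReal
open Pool.Agent.BE01 Pool.Agent.Helper82_BE01 Pool.Agent.BED

noncomputable section

theorem wv3_core : EmbStmt → StaStmt → DnsStmt → IncStmt → HscStmt → Al2Stmt → CspStmt → Wv3Stmt := by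
  intro emb sta dns inc hsc alg spc d Ω hd hΩ
  have := mu_finite hΩ
  obtain ⟨ι, hι, hH10⟩ := emb d Ω hd hΩ
  obtain ⟨C0, hC0, hsta⟩ := sta d Ω ι hΩ hι
  obtain ⟨⟨J64, hJ64⟩, ⟨J42, hJ42⟩⟩ := inc (En d) (mu Ω)
  obtain ⟨X, iX1, iX2, iX3, A, hPtw⟩ := alg (En d) (mu Ω)
  have hA2 := hPtw.2.1
  have hA5 := hPtw.2.2.2.2.1
  have : CompleteSpace (VV Ω) := by
    unfold VV
    exact Submodule.topologicalClosure.completeSpace _
  let ι2 : VV Ω →L[ℝ] Lp ℝ 2 (mu Ω) := J42.comp (J64.comp ι)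
  have hι2 : ∀ G, ι2 G =ᵐ[mu Ω] ι G := fun G => (hJ42 _).trans (hJ64 _)
  have hdense : DenseRange ι2 := by
    have h1 := dns d Ω hΩ
    intro x
    have hx : x ∈ closure {f : Lp ℝ 2 (mu Ω) | ∃ ψ, Tst Ω ψ ∧ f =ᵐ[mu Ω] ψ} := by
      rw [h1]; trivial
    refine closure_mono ?_ hx
    rintro f ⟨ψ, hψ, hf⟩
    obtain ⟨G, hG⟩ := exists_grad hψ
    refine ⟨G, ?_⟩
    apply Lp.ext
    exact (hι2 G).trans ((hι ψ hψ G hG).trans hf.symm)
  let T : Lp ℝ 2 (mu Ω) →L[ℝ] VV Ω := ContinuousLinearMap.adjoint ι2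
  have hT : ∀ (h : Lp ℝ 2 (mu Ω)) (G : VV Ω), ⟪T h, G⟫_ℝ = ⟪h, ι2 G⟫_ℝ := fun h G =>
    ContinuousLinearMap.adjoint_inner_left ι2 G h
  let Z : Lp ℝ 2 (mu Ω) →L[ℝ] Lp (En d) 2 (mu Ω) := (VV Ω).subtypeL.comp T
  have hZ : ∀ h, Z h = (T h : Lp (En d) 2 (mu Ω)) := fun h => rfl
  -- the weak equation
  have hinner : ∀ (h : Lp ℝ 2 (mu Ω)) (ψ : En d → ℝ), Tst Ω ψ → ∀ G : VV Ω,
      (G : Lp (En d) 2 (mu Ω)) =ᵐ[mu Ω] gradient ψ →
      ⟪h, ι2 G⟫_ℝ = ∫ x, h x * ψ x ∂(mu Ω) := by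
    intro h ψ hψ G hG
    rw [L2.inner_def]
    apply integral_congr_ae
    filter_upwards [(hι2 G).trans (hι ψ hψ G hG)] with x hx
    rw [hx]
    simp [mul_comm]
  have hinner2 : ∀ (F : Lp (En d) 2 (mu Ω)) (ψ : En d → ℝ), Tst Ω ψ → ∀ G : VV Ω,
      (G : Lp (En d) 2 (mu Ω)) =ᵐ[mu Ω] gradient ψ →
      ⟪F, (G : Lp (En d) 2 (mu Ω))⟫_ℝ = ∫ x, ⟪F x, gradient ψ x⟫_ℝ ∂(mu Ω) := by
    intro F ψ hψ G hG
    rw [L2.inner_def]
    apply integral_congr_ae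
    filter_upwards [hG] with x hx
    rw [hx]
  have hweak : ∀ h ψ, Tst Ω ψ → ∫ x, ⟪(T h : Lp (En d) 2 (mu Ω)) x, gradient ψ x⟫_ℝ ∂(mu Ω) =
      ∫ x, h x * ψ x ∂(mu Ω) := by
    intro h ψ hψ
    obtain ⟨G, hG⟩ := exists_grad hψ
    rw [← hinner2 _ ψ hψ G hG, ← hinner h ψ hψ G hG, ← hT]
    rfl
  let S : Lp ℝ 2 (mu Ω) →L[ℝ] Lp ℝ 2 (mu Ω) := ι2.comp T
  have hS : ∀ h, S h =ᵐ[mu Ω] ι (T h) := fun h => hι2 (T h)
  have hSb : ∀ h, ∀ᵐ z ∂(mu Ω), |S h z| ≤ C0 * ‖h‖ := by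
    intro h
    filter_upwards [hS h, hsta h (T h) (hweak h)] with z h1 h2
    rw [h1]
    exact h2
  have hcpt : IsCompactOperator S := hsc (En d) (mu Ω) S C0 hC0.le hSb
  obtain ⟨R, C, Sn, U, hprp, hkin, hU⟩ := spc (VV Ω) (Lp ℝ 2 (mu Ω)) ι2 hdense hcpt
  -- the lift to L^infinity
  have hlift : ∀ h, ∃ x, A.e x = S h ∧ ‖x‖ ≤ C0 * ‖h‖ := fun h =>
    hA2 (S h) (C0 * ‖h‖) (by positivity) (hSb h)
  choose sx hsx1 hsx2 using hlift
  have e_inj : Function.Injective A.e := A.j_inj.comp A.i_inj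
  let SXl : Lp ℝ 2 (mu Ω) →ₗ[ℝ] X :=
    { toFun := sx
      map_add' := by
        intro x y
        apply e_inj
        rw [hsx1, map_add, map_add, hsx1, hsx1]
      map_smul' := by
        intro r x
        apply e_inj
        rw [hsx1, map_smul, map_smul, hsx1]
        rfl }
  let SX : Lp ℝ 2 (mu Ω) →L[ℝ] X := SXl.mkContinuous C0 hsx2
  let W : Wv A :=
    { S := S, R := R, C := C, Sn := Sn, SX := SX, RY := J64.comp (ι.comp U)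
      prp := hprp
      e_SX := fun h => hsx1 h
      j_RY := by
        intro h
        rw [hU h]
        apply Lp.ext
        exact ((hA5 _).trans (hJ64 _)).trans (hι2 _).symm }
  have hWS : ∀ h, W.S h = S h := fun h => rfl
  have huniq : ∀ (h u : Lp ℝ 2 (mu Ω)) (G : Lp (En d) 2 (mu Ω)), (u, G) ∈ H10 Ω →
      (∀ ψ, Tst Ω ψ → ∫ x, ⟪G x, gradient ψ x⟫_ℝ ∂(mu Ω) = ∫ x, h x * ψ x ∂(mu Ω)) →
      u = S h := by
    intro h u G hG1 hG2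
    obtain ⟨hG, hu⟩ := (hH10 u G).1 hG1
    have hD : (⟨G, hG⟩ : VV Ω) - T h = 0 := by
      apply VV_eq_zero
      intro ψ hψ G' hG'
      rw [inner_sub_left, hT, hinner h ψ hψ G' hG']
      have h1 : ⟪(⟨G, hG⟩ : VV Ω), G'⟫_ℝ = ∫ x, ⟪G x, gradient ψ x⟫_ℝ ∂(mu Ω) :=
        hinner2 G ψ hψ G' hG'
      rw [h1, hG2 ψ hψ, sub_self]
    have hu2 : u = ι2 ⟨G, hG⟩ := Lp.ext (hu.trans (hι2 _).symm)
    rw [sub_eq_zero] at hD
    rw [hu2, hD]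
    rfl
  refine ⟨X, iX1, iX2, iX3, A, W, Z, hPtw, hkin, hcpt, ?_, ?_, hweak, ?_, huniq⟩
  · intro h
    rw [hWS, hH10]
    exact ⟨(T h).2, hS h⟩
  · intro h
    rw [hWS, hZ]
    have h1 : ‖((T h : VV Ω) : Lp (En d) 2 (mu Ω))‖ ^ 2 = ⟪T h, T h⟫_ℝ :=
      (real_inner_self_eq_norm_sq (T h)).symm
    rw [h1, hT]
    rfl
  · intro l u
    rw [hWS]
    constructor
    · rintro ⟨G, hG1, hG2⟩
      obtain ⟨hG, hu⟩ := (hH10 u G).1 hG1
      have hD : (⟨G, hG⟩ : VV Ω) - l • T u = 0 := by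
        apply VV_eq_zero
        intro ψ hψ G' hG'
        have h3 : ⟪l • T u, G'⟫_ℝ = l * ⟪T u, G'⟫_ℝ := by
          show ⟪l • (T u : Lp (En d) 2 (mu Ω)), (G' : Lp (En d) 2 (mu Ω))⟫_ℝ =
            l * ⟪(T u : Lp (En d) 2 (mu Ω)), (G' : Lp (En d) 2 (mu Ω))⟫_ℝ
          rw [real_inner_smul_left]
        rw [inner_sub_left, h3, hT, hinner u ψ hψ G' hG']
        have h1 : ⟪(⟨G, hG⟩ : VV Ω), G'⟫_ℝ = ∫ x, ⟪G x, gradient ψ x⟫_ℝ ∂(mu Ω) :=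
          hinner2 G ψ hψ G' hG'
        rw [h1, hG2 ψ hψ, sub_self]
      have hu2 : u = ι2 ⟨G, hG⟩ := Lp.ext (hu.trans (hι2 _).symm)
      rw [sub_eq_zero] at hD
      calc u = ι2 ⟨G, hG⟩ := hu2
        _ = ι2 (l • T u) := by rw [hD]
        _ = l • S u := by rw [map_smul]; rfl
    · intro hu
      refine ⟨l • Z u, ?_, ?_⟩
      · rw [hH10]
        refine ⟨(VV Ω).smul_mem l (T u).2, ?_⟩
        have h1 : u = ι2 (l • T u) := by
          calc u = l • S u := hu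
            _ = ι2 (l • T u) := by rw [map_smul]; rfl
        have h2 := hι2 (l • T u)
        rw [← h1] at h2
        exact h2
      · intro ψ hψ
        rw [← hweak u ψ hψ, ← integral_const_mul]
        apply integral_congr_ae
        filter_upwards [Lp.coeFn_smul l (Z u)] with x hx
        rw [hx, Pi.smul_apply, real_inner_smul_left]
        rfl

theorem wv3 (al2 : Al2Stmt) (csp : CspStmt) : Wv3Stmt :=
  wv3_core Pool.Agent.Helper70BE01All.emb Pool.Agent.Helper70BE01All.sta Pool.Agent.BE01.H94.dns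
    Pool.Agent.BE01.H94.inc Pool.Agent.BE01.H72.hsc al2 csp

end

end Pool.Agent.BED.H14
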